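import Mathlib

/-!
# The clique number of an overlap graph does not control that of its quotient by inversion

Words over `S ∪ S⁻¹` are lists over `α × Bool` and elements of the free group are identified with
their reduced words `FreeGroup.toWord`.
-/

namespace Pool.Agent.Results.MP_81fdd0_co.CrossedOverlaps

open List FreeGroup

variable {α : Type*}

/-- The word `w` properly overlaps the word `w'`: a nonempty word `x` is a proper suffix of `w`
and a proper prefix of `w'`. -/
def ProperOverlap (w w' : List (α × Bool)) : Prop :=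
  ∃ u x v, u ≠ [] ∧ x ≠ [] ∧ v ≠ [] ∧ w = u ++ x ∧ w' = x ++ v

variable [DecidableEq α]

/-- The element `g` of the free group properly overlaps `h` (in terms of reduced words). -/
def Overlaps (g h : FreeGroup α) : Prop := ProperOverlap g.toWord h.toWord

/-- `g ≠ 1` is non-self-overlapping: no nonempty word is a proper prefix and a proper suffix of
the reduced word of `g`. -/
def NonSelfOverlapping (g : FreeGroup α) : Prop :=
  g ≠ 1 ∧ ¬ ∃ x : List (α × Bool), x ≠ [] ∧ x ≠ g.toWord ∧ x <+: g.toWord ∧ x <:+ g.toWord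

/-- The underlying undirected graph of the overlap graph `OG(V)`: its vertices are the elements
of `V`, and distinct `g`, `h` are adjacent if one of them properly overlaps the other. -/
def OG (V : Set (FreeGroup α)) : SimpleGraph V where
  Adj g h := g ≠ h ∧ (Overlaps g.1 h.1 ∨ Overlaps h.1 g.1)
  symm := ⟨fun _ _ h => ⟨h.1.symm, h.2.symm⟩⟩
  loopless := ⟨fun _ h => h.1 rfl⟩

/-- The vertices of the quotient graph: the pairs `{g, g⁻¹}` with `g ∈ V`. -/
def Pairs (V : Set (FreeGroup α)) : Type _ :=
  {p : Set (FreeGroup α) // ∃ g ∈ V, p = {g, g⁻¹}}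

/-- The quotient of the overlap graph of `V` by inversion: two distinct pairs are adjacent if some
element of one properly overlaps some element of the other. -/
def OGbar (V : Set (FreeGroup α)) : SimpleGraph (Pairs V) where
  Adj p q := p ≠ q ∧ ∃ g ∈ p.1, ∃ h ∈ q.1, Overlaps g h ∨ Overlaps h g
  symm := ⟨fun _ _ ⟨hne, g, hg, h, hh, ho⟩ => ⟨hne.symm, h, hh, g, hg, ho.symm⟩⟩
  loopless := ⟨fun _ h => h.1 rfl⟩

/-! ## Words whose consecutive letters have different bases -/

/-- Consecutive letters lie over different generators, and the first and the last letter lie over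
the generator `a`. -/
def Good (a : α) (s : List (α × Bool)) : Prop :=
  s.IsChain (fun p q => p.1 ≠ q.1) ∧ (∃ e t, s = (a, e) :: t) ∧ ∃ e t, s = t ++ [(a, e)]

omit [DecidableEq α] in
lemma Good.inv {a : α} {s : List (α × Bool)} (h : Good a s) : Good a (invRev s) := by
  obtain ⟨hc, ⟨e, t, rfl⟩, ⟨e', t', ht'⟩⟩ := h
  refine ⟨?_, ⟨!e', invRev t', ?_⟩, ⟨!e, invRev t, ?_⟩⟩
  · unfold invRev
    rw [List.isChain_reverse, List.isChain_map]
    exact hc.imp fun p q h => h.symm
  · rw [ht', invRev_append]; simp [invRev]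
  · rw [invRev_cons]; simp [invRev]

omit [DecidableEq α] in
lemma Good.join {a b : α} (hab : a ≠ b) {s y : List (α × Bool)} (hs : Good a s) (hy : Good a y) :
    Good a (s ++ (b, true) :: y) := by
  obtain ⟨hc, ⟨e, t, ht⟩, ⟨e', t', ht'⟩⟩ := hs
  obtain ⟨hd, ⟨f, r, hr⟩, ⟨f', r', hr'⟩⟩ := hy
  refine ⟨?_, ⟨e, t ++ (b, true) :: y, ?_⟩, ⟨f', s ++ (b, true) :: r', ?_⟩⟩
  · rw [List.isChain_append]
    refine ⟨hc, ?_, ?_⟩
    · rw [hr, List.isChain_cons_cons, ← hr]
      exact ⟨hab.symm, hd⟩
    · intro x hx y' hy'
      rw [ht'] at hx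
      simp at hx hy'
      subst hx hy'
      exact hab
  · rw [ht]; simp
  · rw [hr']; simp

omit [DecidableEq α] in
lemma Good.single (a : α) : Good a [(a, true)] :=
  ⟨List.isChain_singleton _, ⟨true, [], rfl⟩, ⟨true, [], rfl⟩⟩

/-- The crossing relation: a nonempty suffix of `s` is inverse to a suffix of `t`. -/
def Cross (s t : List (α × Bool)) : Prop := ∃ x, x ≠ [] ∧ x <:+ s ∧ invRev x <:+ t

omit [DecidableEq α] in
lemma Cross.mono {s s' t t' : List (α × Bool)} (h : Cross s t) (hs : s <:+ s') (ht : t <:+ t') :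
    Cross s' t' := by
  obtain ⟨x, hx, h1, h2⟩ := h
  exact ⟨x, hx, h1.trans hs, h2.trans ht⟩

omit [DecidableEq α] in
/-- One step of the inductive construction of pairwise crossing words. -/
lemma ext {a b : α} (hab : a ≠ b) (l : List (List (α × Bool))) :
    ∀ y, Good a y → (∀ u ∈ l, Good a u) → l.Pairwise Cross →
    ∃ (l' : List (List (α × Bool))) (z : List (α × Bool)), l'.length = l.length ∧ (∀ u ∈ l', Good a u) ∧ Good a z ∧ y <:+ z ∧
      y.length < z.length ∧
      (∀ u ∈ l', invRev u <:+ z ∧ y.length < u.length ∧ u.length < z.length) ∧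
      l'.Pairwise (fun s t => Cross s t ∧ s.length < t.length) ∧
      ∀ t, (∀ u ∈ l, Cross t u) → ∀ u ∈ l', Cross t u := by
  induction l with
  | nil =>
    intro y hy _ _
    refine ⟨[], [(a, true)] ++ (b, true) :: y, rfl, by simp, (Good.single a).join hab hy,
      ⟨[(a, true), (b, true)], by simp⟩, by simp, by simp, List.Pairwise.nil, by simp⟩
  | cons u l ih =>
    intro y hy hl hp
    have hu : Good a u := hl u (by simp)
    set y' := invRev u ++ (b, true) :: y with hy'
    have hgy' : Good a y' := hu.inv.join hab hy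
    rw [List.pairwise_cons] at hp
    obtain ⟨l', z, hlen, hgood, hz, hyz, hlt, hall, hpw, hmono⟩ :=
      ih y' hgy' (fun v hv => hl v (by simp [hv])) hp.2
    have huu' : u <:+ invRev y' := by
      rw [hy', invRev_append, invRev_invRev]
      exact ⟨_, rfl⟩
    have hylt : y.length < y'.length := by rw [hy']; simp; omega
    refine ⟨invRev y' :: l', z, by simp [hlen], ?_, hz, ?_, by omega, ?_, ?_, ?_⟩
    · intro v hv
      rcases List.mem_cons.1 hv with rfl | hv
      · exact hgy'.inv
      · exact hgood v hv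
    · exact List.IsSuffix.trans ⟨invRev u ++ [(b, true)], by rw [hy']; simp⟩ hyz
    · intro v hv
      rcases List.mem_cons.1 hv with rfl | hv
      · rw [invRev_invRev, invRev_length]
        exact ⟨hyz, hylt, hlt⟩
      · obtain ⟨h1, h2, h3⟩ := hall v hv
        exact ⟨h1, by omega, h3⟩
    · rw [List.pairwise_cons]
      refine ⟨fun v hv => ⟨?_, ?_⟩, hpw⟩
      · refine (hmono u (fun w hw => hp.1 w hw) v hv).mono huu' (List.suffix_refl _)
      · rw [invRev_length]; exact (hall v hv).2.1
    · intro t ht v hv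
      rcases List.mem_cons.1 hv with rfl | hv
      · exact (ht u (by simp)).mono (List.suffix_refl _) huu'
      · exact hmono t (fun w hw => ht w (by simp [hw])) v hv

omit [DecidableEq α] in
/-- Arbitrarily long families of pairwise crossing words. -/
lemma family {a b : α} (hab : a ≠ b) (n : ℕ) :
    ∃ l : List (List (α × Bool)), l.length = n ∧ (∀ u ∈ l, Good a u) ∧
      l.Pairwise (fun s t => Cross s t ∧ s.length < t.length) := by
  induction n with
  | zero => exact ⟨[], rfl, by simp, List.Pairwise.nil⟩
  | succ n ih =>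
    obtain ⟨l, hlen, hg, hp⟩ := ih
    obtain ⟨l', z, h1, h2, h3, -, -, h6, h7, -⟩ :=
      ext hab l [(a, true)] (Good.single a) hg (hp.imp fun h => h.1)
    refine ⟨l' ++ [z], by simp [h1, hlen], ?_, ?_⟩
    · intro u hu
      rcases List.mem_append.1 hu with hu | hu
      · exact h2 u hu
      · rw [List.mem_singleton.1 hu]; exact h3
    · rw [List.pairwise_append]
      refine ⟨h7, List.pairwise_singleton _ _, fun u hu v hv => ?_⟩
      rw [List.mem_singleton.1 hv]
      refine ⟨⟨u, ?_, List.suffix_refl _, (h6 u hu).1⟩, (h6 u hu).2.2⟩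
      obtain ⟨-, ⟨e, t, ht⟩, -⟩ := h2 u hu
      rw [ht]; simp

/-! ## The set `V` -/

omit [DecidableEq α] in
/-- Words `b b s` with `s` good do not properly overlap. -/
lemma no_overlap {a b : α} (hab : a ≠ b) {s t : List (α × Bool)} (hs : Good a s) (_ht : Good a t) :
    ¬ ProperOverlap ((b, true) :: (b, true) :: s) ((b, true) :: (b, true) :: t) := by
  rintro ⟨u, x, v, hu, hx, hv, h1, h2⟩
  obtain ⟨hc, ⟨e, s1, hs1⟩, ⟨e', s2, hs2⟩⟩ := hs
  obtain _ | ⟨c, x⟩ := x
  · exact hx rfl
  obtain _ | ⟨d, x⟩ := x
  · -- a single letter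
    rw [List.cons_append, List.cons.injEq] at h2
    have h3 : ((b, true) :: (b, true) :: s2) ++ [(a, e')] = u ++ [(b, true)] := by
      rw [hs2, ← h2.1] at h1
      simpa using h1
    have h4 := List.append_inj_right' h3 rfl
    simp at h4
    exact hab h4.1
  · rw [List.cons_append, List.cons_append, List.cons.injEq, List.cons.injEq] at h2
    obtain ⟨rfl, rfl, -⟩ := h2
    obtain _ | ⟨c1, u⟩ := u
    · exact hu rfl
    obtain _ | ⟨c2, u⟩ := u
    · rw [List.cons_append, List.nil_append, List.cons.injEq, List.cons.injEq, hs1] at h1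
      have := h1.2.2
      simp at this
      exact hab this.1.1
    · rw [List.cons_append, List.cons_append, List.cons.injEq, List.cons.injEq] at h1
      rw [h1.2.2, List.isChain_append, List.isChain_cons_cons] at hc
      exact hc.2.1.1 rfl

/-- The set `V`: the elements with reduced word `b b s`, `s` good, and their inverses. -/
def VSet (a b : α) : Set (FreeGroup α) :=
  {g | ∃ s, Good a s ∧ (g.toWord = (b, true) :: (b, true) :: s ∨
    g⁻¹.toWord = (b, true) :: (b, true) :: s)}

omit [DecidableEq α] in
lemma overlap_inv {w w' : List (α × Bool)} (h : ProperOverlap (invRev w) (invRev w')) :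
    ProperOverlap w' w := by
  obtain ⟨u, x, v, hu, hx, hv, h1, h2⟩ := h
  have hne : ∀ l : List (α × Bool), l ≠ [] → invRev l ≠ [] := by
    intro l hl h
    apply hl
    rw [← List.length_eq_zero_iff, ← invRev_length, h]; rfl
  refine ⟨invRev v, invRev x, invRev u, hne _ hv, hne _ hx, hne _ hu, ?_, ?_⟩
  · rw [← invRev_append, ← h2, invRev_invRev]
  · rw [← invRev_append, ← h1, invRev_invRev]

/-- Two elements of `V` of the same kind do not overlap. -/
lemma no_overlap_inv {a b : α} (hab : a ≠ b) {g h : FreeGroup α} {s t : List (α × Bool)}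
    (hs : Good a s) (ht : Good a t) (hg : g⁻¹.toWord = (b, true) :: (b, true) :: s)
    (hh : h⁻¹.toWord = (b, true) :: (b, true) :: t) : ¬ Overlaps g h := by
  intro ho
  apply no_overlap hab ht hs
  rw [← hg, ← hh]
  have h1 : Overlaps (g⁻¹)⁻¹ (h⁻¹)⁻¹ := by simpa using ho
  rw [Overlaps, toWord_inv g⁻¹, toWord_inv h⁻¹] at h1
  exact overlap_inv h1

lemma self_of_overlap {g : FreeGroup α} (h1 : g ≠ 1) (h : ¬ Overlaps g g) :
    NonSelfOverlapping g := by
  refine ⟨h1, ?_⟩
  rintro ⟨x, hx, hxg, ⟨v, hv⟩, ⟨u, hu⟩⟩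
  refine h ⟨u, x, v, ?_, hx, ?_, hu.symm, hv.symm⟩
  · rintro rfl; exact hxg (by simpa using hu)
  · rintro rfl; exact hxg (by simpa using hv)

lemma toWord_mk_good {a b : α} (hab : a ≠ b) {s : List (α × Bool)} (hs : Good a s) :
    (FreeGroup.mk ((b, true) :: (b, true) :: s)).toWord = (b, true) :: (b, true) :: s := by
  rw [toWord_mk]
  apply FreeGroup.IsReduced.reduce_eq
  obtain ⟨hc, ⟨e, t, ht⟩, -⟩ := hs
  rw [FreeGroup.IsReduced, ht, List.isChain_cons_cons, List.isChain_cons_cons, ← ht]
  refine ⟨fun _ => rfl, fun h => absurd h.symm hab, hc.imp fun p q h h' => absurd h' h⟩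

/-- **Main theorem.** In every free group of rank at least two (in particular of finite rank
`r ≥ 2`) there is a symmetric set `V` of non-self-overlapping words such that `OG(V)` contains no
triangle, while its quotient by inversion contains complete subgraphs of every finite size. -/
theorem result (α : Type*) [DecidableEq α] [Nontrivial α] :
    ∃ V : Set (FreeGroup α), V⁻¹ = V ∧ (∀ g ∈ V, NonSelfOverlapping g) ∧
      (OG V).CliqueFree 3 ∧ ∀ n : ℕ, ¬ (OGbar V).CliqueFree n := by
  obtain ⟨a, b, hab⟩ := exists_pair_ne α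
  refine ⟨VSet a b, ?_, ?_, ?_, ?_⟩
  · ext g
    simp only [Set.mem_inv, VSet, Set.mem_ofPred_eq, inv_inv]
    exact exists_congr fun s => and_congr_right fun _ => or_comm
  · rintro g ⟨s, hs, hg | hg⟩
    · refine self_of_overlap ?_ ?_
      · rintro rfl; simp at hg
      · rw [Overlaps, hg]; exact no_overlap hab hs hs
    · refine self_of_overlap ?_ (no_overlap_inv hab hs hs hg hg)
      rintro rfl; simp at hg
  · -- no triangle: two of three vertices are of the same kind
    intro S hS
    rw [SimpleGraph.is3Clique_iff] at hS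
    obtain ⟨g, h, k, hgh, hgk, hhk, -⟩ := hS
    have key : ∀ x y : VSet a b, (OG (VSet a b)).Adj x y →
        ((∃ s, Good a s ∧ x.1.toWord = (b, true) :: (b, true) :: s) ∧
          (∃ s, Good a s ∧ y.1⁻¹.toWord = (b, true) :: (b, true) :: s)) ∨
        ((∃ s, Good a s ∧ x.1⁻¹.toWord = (b, true) :: (b, true) :: s) ∧
          (∃ s, Good a s ∧ y.1.toWord = (b, true) :: (b, true) :: s)) := by
      rintro ⟨x, s, hs, hx⟩ ⟨y, t, ht, hy⟩ ⟨-, hxy⟩
      rcases hx with hx | hx <;> rcases hy with hy | hy
      · exfalso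
        rcases hxy with h | h
        · rw [Overlaps] at h
          exact no_overlap hab hs ht (by rw [← hx, ← hy]; exact h)
        · rw [Overlaps] at h
          exact no_overlap hab ht hs (by rw [← hx, ← hy]; exact h)
      · exact Or.inl ⟨⟨s, hs, hx⟩, ⟨t, ht, hy⟩⟩
      · exact Or.inr ⟨⟨s, hs, hx⟩, ⟨t, ht, hy⟩⟩
      · exfalso
        rcases hxy with h | h
        · exact no_overlap_inv hab hs ht hx hy h
        · exact no_overlap_inv hab ht hs hy hx h
    -- no element is of both kinds
    have excl : ∀ x : FreeGroup α, (∃ s, Good a s ∧ x.toWord = (b, true) :: (b, true) :: s) →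
        ¬ ∃ s, Good a s ∧ x⁻¹.toWord = (b, true) :: (b, true) :: s := by
      rintro x ⟨s, hs, hx⟩ ⟨t, ht, hx'⟩
      rw [toWord_inv, hx] at hx'
      obtain ⟨-, -, ⟨e, r, hr⟩⟩ := hs
      rw [hr] at hx'
      have : (b, true) :: (b, true) :: (r ++ [(a, e)]) =
        ((b, true) :: (b, true) :: r) ++ [(a, e)] := rfl
      rw [this, invRev_append] at hx'
      simp [invRev] at hx'
      exact hab hx'.1.1
    rcases key g h hgh with ⟨h1, h2⟩ | ⟨h1, h2⟩
    · rcases key h k hhk with ⟨h3, h4⟩ | ⟨h3, h4⟩
      · exact excl _ h3 h2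
      · rcases key g k hgk with ⟨h5, h6⟩ | ⟨h5, h6⟩
        · exact excl _ h4 h6
        · exact excl _ h1 h5
    · rcases key h k hhk with ⟨h3, h4⟩ | ⟨h3, h4⟩
      · rcases key g k hgk with ⟨h5, h6⟩ | ⟨h5, h6⟩
        · exact excl _ h5 h1
        · exact excl _ h6 h4
      · exact excl _ h2 h3
  · intro n
    obtain ⟨l, hlen, hg, hp⟩ := family hab n
    subst hlen
    have hget : ∀ i : Fin l.length, Good a (l.get i) := fun i => hg _ (List.get_mem l i)
    let f : Fin l.length → Pairs (VSet a b) := fun i =>
      ⟨{FreeGroup.mk ((b, true) :: (b, true) :: l.get i),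
        (FreeGroup.mk ((b, true) :: (b, true) :: l.get i))⁻¹},
        FreeGroup.mk ((b, true) :: (b, true) :: l.get i),
        ⟨l.get i, hget i, Or.inl (toWord_mk_good hab (hget i))⟩, rfl⟩
    have hadj : ∀ i j : Fin l.length, i < j → (OGbar (VSet a b)).Adj (f i) (f j) := by
      intro i j hij
      obtain ⟨⟨x, hx, ⟨p, hp1⟩, ⟨q, hq⟩⟩, hlt⟩ := List.pairwise_iff_get.1 hp i j hij
      refine ⟨?_, ?_⟩
      · intro he
        have hm : FreeGroup.mk ((b, true) :: (b, true) :: l.get i) ∈ (f j).1 := by
          rw [← he]; exact Set.mem_insert _ _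
        rcases hm with hm | hm
        · have := congrArg FreeGroup.toWord hm
          rw [toWord_mk_good hab (hget i), toWord_mk_good hab (hget j)] at this
          simp only [List.cons.injEq, true_and] at this
          rw [this] at hlt
          exact lt_irrefl _ hlt
        · have := congrArg FreeGroup.toWord (Set.mem_singleton_iff.1 hm)
          rw [toWord_inv, toWord_mk_good hab (hget i), toWord_mk_good hab (hget j)] at this
          obtain ⟨-, -, ⟨e, r, hr⟩⟩ := hget j
          rw [hr] at this
          have h2 : (b, true) :: (b, true) :: (r ++ [(a, e)]) =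
            ((b, true) :: (b, true) :: r) ++ [(a, e)] := rfl
          rw [h2, invRev_append] at this
          simp [invRev] at this
          exact hab this.1.1.symm
      · refine ⟨FreeGroup.mk ((b, true) :: (b, true) :: l.get i), Set.mem_insert _ _,
          (FreeGroup.mk ((b, true) :: (b, true) :: l.get j))⁻¹,
          Set.mem_insert_of_mem _ rfl, Or.inl ?_⟩
        rw [Overlaps, toWord_inv, toWord_mk_good hab (hget i), toWord_mk_good hab (hget j)]
        refine ⟨(b, true) :: (b, true) :: p, x, invRev ((b, true) :: (b, true) :: q),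
          by simp, hx, ?_, ?_, ?_⟩
        · intro h
          have := congrArg List.length h
          rw [invRev_length] at this
          simp at this
        · rw [← hp1]; simp
        · rw [← hq]
          have h2 : (b, true) :: (b, true) :: (q ++ invRev x) =
            ((b, true) :: (b, true) :: q) ++ invRev x := rfl
          rw [h2, invRev_append, invRev_invRev]
    have hadj' : ∀ i j : Fin l.length, i ≠ j → (OGbar (VSet a b)).Adj (f i) (f j) := by
      intro i j hij
      rcases lt_or_gt_of_ne hij with h | h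
      · exact hadj i j h
      · exact (hadj j i h).symm
    have hom : (⊤ : SimpleGraph (Fin l.length)) →g OGbar (VSet a b) :=
      ⟨f, fun {i j} h => hadj' i j h⟩
    rw [SimpleGraph.not_cliqueFree_iff_top_isContained]
    exact ⟨⟨hom, hom.injective_of_top_hom⟩⟩

end Pool.Agent.Results.MP_81fdd0_co.CrossedOverlaps
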